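import Pool.Agent.H1.Box3

namespace Pool.Agent.Results.MP_de9148_co.Sharp
open Pool.Agent.H1.Box

/-- A box: a product of nondegenerate closed intervals. -/
def IsBox {d : ℕ} (B : Set (Fin d → ℝ)) : Prop :=
  ∃ a b : Fin d → ℝ, (∀ i, a i < b i) ∧ B = {x | ∀ i, a i ≤ x i ∧ x i ≤ b i}

/-- Some affine line meets every member of the family. -/
def HasLine {d : ℕ} (F : Finset (Set (Fin d → ℝ))) : Prop :=
  ∃ p v : Fin d → ℝ, v ≠ 0 ∧ ∀ B ∈ F, ∃ t : ℝ, p + t • v ∈ B

theorem result (d : ℕ) (hd : 2 ≤ d) :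
    ∃ F : Finset (Set (Fin d → ℝ)), (∀ B ∈ F, IsBox B) ∧ F.card = 2 ^ (d - 1) * (2 * d - 1) ∧
      (∀ G ⊆ F, G.card ≤ 2 ^ (d - 1) * (2 * d - 1) - 1 → HasLine G) ∧ ¬ HasLine F := by
  classical
  obtain ⟨m, rfl⟩ : ∃ m, d = m + 1 := ⟨d - 1, by omega⟩
  have e : 2 * (m + 1) - 1 = 2 * m + 1 := by omega
  rw [Nat.add_sub_cancel, e]
  obtain ⟨lo, hi, h1, h2, h3⟩ := lower (m := m) (by omega)
  let B := fun i => {x : Fin (m + 1) → ℝ | ∀ k, lo i k ≤ x k ∧ x k ≤ hi i k}
  have hinj : Function.Injective B := by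
    intro i j hij
    by_contra hne
    obtain ⟨p, v, -, H⟩ := h3 i
    refine h2 p v fun k => ?_
    by_cases hk : k = i
    · obtain ⟨t, ht⟩ := H j (Ne.symm hne)
      have : (fun k => p k + t * v k) ∈ B j := ht
      rw [← hij] at this
      exact ⟨t, hk ▸ this⟩
    · exact H k hk
  have hc0 : (Finset.univ.image B).card = 2 ^ m * (2 * m + 1) := by
    rw [Finset.card_image_of_injective _ hinj]
    simp only [Finset.card_univ, Fintype.card_prod, Fintype.card_pi, Fintype.card_bool,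
      Finset.prod_const, Fintype.card_fin, Fintype.card_option]
    rw [mul_comm m 2]
  refine ⟨Finset.univ.image B, fun C hC => ?_, hc0, fun G hG hc => ?_, ?_⟩
  · obtain ⟨i, -, rfl⟩ := Finset.mem_image.1 hC
    exact ⟨lo i, hi i, h1 i, rfl⟩
  · have hcard : G.card < (Finset.univ.image B).card := by
      have : 0 < 2 ^ m * (2 * m + 1) := by positivity
      omega
    obtain ⟨C, hC, hCG⟩ := Finset.exists_mem_notMem_of_card_lt_card hcard
    obtain ⟨i, -, rfl⟩ := Finset.mem_image.1 hC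
    obtain ⟨p, v, hv, H⟩ := h3 i
    refine ⟨p, v, hv, fun C hC => ?_⟩
    obtain ⟨j, -, rfl⟩ := Finset.mem_image.1 (hG hC)
    exact H j fun hj => hCG (hj ▸ hC)
  · rintro ⟨p, v, -, H⟩
    exact h2 p v fun i => H (B i) (Finset.mem_image_of_mem _ (Finset.mem_univ i))

end Pool.Agent.Results.MP_de9148_co.Sharp
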